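import Pool.Agent.H95.FC.Targets

/-!
# The Epstein zeta function of the form of a line (FRM)
-/

set_option autoImplicit false

open MeasureTheory Set Filter NumberField
open Pool.Agent.H31.CN Pool.Agent.H89.FM Pool.Agent.H61.FM Pool.Agent.H89.FC Pool.Agent.H95.FC
open scoped Real nonZeroDivisors Matrix MatrixGroups

namespace Pool.Agent.H82.FC

theorem pf_FRM (hFLF : Pool.Agent.H95.FC.T_FLF) (hFRA : Pool.Agent.H95.FC.T_FRA) :
    Pool.Agent.H95.FC.T_FRM := by
  classical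
  intro m s n f Q V W L hn hf hVW hQ1 hD
  obtain ⟨-, -, -, hinj, -⟩ := hFLF f Q V W hf hVW
  obtain ⟨hy, hy', habs, hmul, hqz⟩ := hFRA f Q V W hf hVW hQ1 hD
  have hV : V ≠ 0 := by
    rintro rfl
    simp [det] at hVW
  have haV : an (zx Q) (zy Q) V ≠ 0 := by
    intro h
    have := habs V hV
    rw [h, norm_zero] at this
    exact zero_ne_one this
  have hz : ∀ v, io f V W v = 0 ↔ v = 0 := by
    intro v
    constructor
    · intro h
      exact hinj (by rw [h, map_zero])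
    · rintro rfl
      exact map_zero _
  have hm : ∀ v, io f V W v ∈ L.map (io f V W) ↔ v ∈ L := by
    intro v
    constructor
    · rintro ⟨w, hw, hwv⟩
      exact hinj hwv ▸ hw
    · intro h
      exact ⟨v, h, rfl⟩
  unfold Em
  set F : ℤ × ℤ → ℂ := fun u => if u ∈ L.map (io f V W) ∧ u ≠ 0 then
    an (zx Q) (zy Q) u ^ m *
      Kmc m.natAbs 1 s ((qz (zx Q) (zy Q) u / ((n * f : ℕ) : ℝ) : ℝ) : ℂ) else 0 with hF
  have e : ∑' u, F u = ∑' v, F (io f V W v) := by
    refine (hinj.tsum_eq ?_).symm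
    intro u hu
    by_contra hr
    apply hu
    simp only [hF]
    rw [if_neg]
    rintro ⟨⟨w, hw, hwu⟩, -⟩
    exact hr ⟨w, hwu⟩
  have e2 : ∀ (A B : ℂ), A = B → an (zx Q) (zy Q) V ^ (-m) * B = an (zx Q) (zy Q) V ^ (-m) * A := by
    rintro A B rfl
    rfl
  refine Eq.trans ?_ (e2 _ _ e)
  rw [← tsum_mul_left]
  refine tsum_congr fun v => ?_
  simp only [hF, hm, ne_eq, hz]
  by_cases h : v ∈ L ∧ ¬ v = 0
  · rw [if_pos h, if_pos h, hmul v, mul_zpow, hqz v]
    have e3 : qz (zx Q) (zy Q) (io f V W v) / (f : ℝ) / (n : ℝ) =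
        qz (zx Q) (zy Q) (io f V W v) / ((n * f : ℕ) : ℝ) := by
      rw [div_div]
      push_cast
      rw [mul_comm]
    rw [e3, zpow_neg]
    have h1 : an (zx Q) (zy Q) V ^ m ≠ 0 := zpow_ne_zero _ haV
    field_simp
  · rw [if_neg h, if_neg h, mul_zero]

end Pool.Agent.H82.FC
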